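import Pool.Agent.N162.GP.Stm

set_option autoImplicit false

/-!
# GP/INX: from finite transcendence degree to all algebraically closed fields
-/

open FF Pool.Agent.W603.LV Pool.Agent.Y184.NT Pool.Agent.N162.BC IntermediateField MvPolynomial

namespace Pool.Agent.N339.GP

open Pool.Agent.N162.GP

theorem inx_ (h : StIND) : StINX := by
  classical
  intro M n m N D K Ω _ _ _ _ _ x ω₀ h1 h2 h3 h4 hx0 hadj htr hcut hAdj S lam hS hlam hcard hrel
  let T : Set Ω := (⋃ σ ∈ S, Set.range fun j => σ (x j)) ∪ lam '' (S : Set (K →ₐ[ℂ] Ω))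
  have hT : T.Finite := by
    apply Set.Finite.union
    · exact Set.Finite.biUnion S.finite_toSet fun σ _ => Set.finite_range _
    · exact S.finite_toSet.image lam
  let F₁ : IntermediateField ℂ Ω := IntermediateField.adjoin ℂ T
  have hfg : F₁.FG := IntermediateField.fg_adjoin_of_finite hT
  have : Algebra.EssFiniteType ℂ F₁ := IntermediateField.essFiniteType_iff.mpr hfg
  let Ω₁ : IntermediateField F₁ Ω := algebraicClosure F₁ Ω
  have : IsAlgClosed Ω₁ := IsAlgClosure.isAlgClosed F₁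
  have : FinTrdeg ℂ Ω₁ := FinTrdeg.trans ℂ F₁ Ω₁
  obtain ⟨t, ht⟩ := Cardinal.lt_aleph0.1 (trdeg_lt_aleph0 ℂ Ω₁)
  have hmem : ∀ z ∈ F₁, z ∈ Ω₁ := fun z hz => Ω₁.algebraMap_mem ⟨z, hz⟩
  have hσ : ∀ σ ∈ S, ∀ a : K, σ a ∈ Ω₁ := by
    intro σ hσ a
    apply hmem
    have h5 : (IntermediateField.adjoin ℂ (Set.range x)).map σ ≤ F₁ := by
      rw [IntermediateField.adjoin_map]
      apply IntermediateField.adjoin.mono
      rintro _ ⟨_, ⟨j, rfl⟩, rfl⟩
      left
      exact Set.mem_biUnion hσ ⟨j, rfl⟩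
    apply h5
    refine ⟨a, ?_, rfl⟩
    have : a ∈ IntermediateField.adjoin ℂ (Set.range x) := by
      rw [hadj]
      exact IntermediateField.mem_top
    exact this
  have hl : ∀ σ ∈ S, lam σ ∈ Ω₁ := by
    intro σ hσ
    apply hmem
    apply IntermediateField.subset_adjoin
    right
    exact ⟨σ, hσ, rfl⟩
  let val : Ω₁ →ₐ[ℂ] Ω := Ω₁.val.restrictScalars ℂ
  have hval : Function.Injective val := fun a b hab => Subtype.ext hab
  let g : {σ // σ ∈ S} → (K →ₐ[ℂ] Ω₁) := fun σ =>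
    { toFun := fun a => ⟨σ.1 a, hσ σ.1 σ.2 a⟩
      map_one' := Subtype.ext (map_one σ.1)
      map_mul' := fun a b => Subtype.ext (map_mul σ.1 a b)
      map_zero' := Subtype.ext (map_zero σ.1)
      map_add' := fun a b => Subtype.ext (map_add σ.1 a b)
      commutes' := fun z => Subtype.ext (σ.1.commutes z) }
  have hg : ∀ σ, val.comp (g σ) = σ.1 := fun σ => AlgHom.ext fun a => rfl
  have hginj : Function.Injective g := by
    intro a b hab
    apply Subtype.ext
    rw [← hg a, ← hg b, hab]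
  let lam₁ : (K →ₐ[ℂ] Ω₁) → Ω₁ := fun τ =>
    if hτ : val.comp τ ∈ S then ⟨lam (val.comp τ), hl _ hτ⟩ else 0
  have hlam₁ : ∀ σ : {σ // σ ∈ S}, val (lam₁ (g σ)) = lam σ.1 := by
    intro σ
    have hτ : val.comp (g σ) ∈ S := by
      rw [hg]
      exact σ.2
    have : lam₁ (g σ) = ⟨lam (val.comp (g σ)), hl _ hτ⟩ := dif_pos hτ
    rw [this]
    change lam (val.comp (g σ)) = lam σ.1
    rw [hg]
  refine h M n m N D t K Ω₁ x ω₀ h1 h2 h3 h4 hx0 hadj htr ht hcut hAdj (S.attach.image g) lam₁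
    (by
      rw [Finset.image_nonempty, Finset.attach_nonempty_iff]
      exact hS) ?_ ?_ ?_
  · intro τ hτ
    rw [Finset.mem_image] at hτ
    obtain ⟨σ, _, rfl⟩ := hτ
    intro h0
    apply hlam σ.1 σ.2
    rw [← hlam₁ σ, h0, map_zero]
  · refine lt_of_le_of_lt Finset.card_image_le ?_
    rw [Finset.card_attach]
    exact hcard
  · intro P hP
    apply hval
    rw [map_zero, map_sum, Finset.sum_image fun a _ b _ hab => hginj hab]
    rw [← hrel P hP, ← Finset.sum_attach S]
    refine Finset.sum_congr rfl fun σ _ => ?_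
    rw [map_mul, hlam₁]
    rfl

end Pool.Agent.N339.GP
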